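import Mathlib

/-! Every Boolean algebra generated by a chain has the monotone selection property. -/

namespace Pool.Agent.Results.MP_9a43b6_co.MonotoneSelection

open Set

universe u

/-- `S` is a nonempty sublattice. -/
def IsSub {T : Type u} [Lattice T] (S : Set T) : Prop :=
  S.Nonempty ∧ ∀ x ∈ S, ∀ y ∈ S, x ⊓ y ∈ S ∧ x ⊔ y ∈ S

/-- The relation `S ≤ S'` between sublattices. -/
def SubLe {T : Type u} [Lattice T] (S S' : Set T) : Prop :=
  ∀ x ∈ S, ∀ x' ∈ S', x ⊓ x' ∈ S ∧ x ⊔ x' ∈ S'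

/-- The monotone selection property. -/
def MonotoneSelection (T : Type u) [Lattice T] : Prop :=
  ∃ φ : {S : Set T // IsSub S} → T,
    (∀ S S', SubLe S.1 S'.1 → φ S ≤ φ S') ∧ ∀ S, φ S ∈ S.1

lemma sel {T W : Type u} [Lattice T] (f : T → W →₀ ℕ)
    (hf : Function.Injective f) (hs : ∀ x y, f (x ⊓ y) + f (x ⊔ y) ≤ f x + f y) :
    MonotoneSelection T := by
  obtain ⟨lo, wf⟩ := exists_wellOrder W
  have hex : ∀ S : {S : Set T // IsSub S}, ∃ x ∈ S.1, ∀ y ∈ S.1, toColex (f x) ≤ toColex (f y) := by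
    intro S
    obtain ⟨_, ⟨x, hx, rfl⟩, h⟩ := (wellFounded_lt (α := Colex (W →₀ ℕ))).has_min
      ((fun x => toColex (f x)) '' S.1) (S.2.1.image _)
    exact ⟨x, hx, fun y hy => not_lt.1 (h _ ⟨y, hy, rfl⟩)⟩
  choose φ h1 h2 using hex
  refine ⟨φ, fun S S' h => ?_, h1⟩
  obtain ⟨h3, h4⟩ := h _ (h1 S) _ (h1 S')
  have h5 : toColex (f (φ S ⊓ φ S')) + toColex (f (φ S ⊔ φ S')) ≤
      toColex (f (φ S)) + toColex (f (φ S')) := Finsupp.toColex_monotone (hs _ _)
  have h6 : toColex (f (φ S ⊓ φ S')) ≤ toColex (f (φ S)) :=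
    le_of_add_le_add_right ((add_le_add_right (h2 S' _ h4) _).trans h5)
  exact inf_eq_left.1 (hf (toColex.injective (le_antisymm h6 (h2 S _ h3))))

theorem result : ∀ (T : Type u) [BooleanAlgebra T] (C : Set T), IsChain (· ≤ ·) C →
    BooleanSubalgebra.closure C = ⊤ → MonotoneSelection T := by
  classical
  intro T _ C hC hgen
  have hD : IsChain (· ≤ ·) (insert ⊥ (insert ⊤ C)) :=
    (hC.insert (fun _ _ _ => Or.inr le_top)).insert (fun _ _ _ => Or.inl bot_le)
  set D := insert ⊥ (insert ⊤ C) with hDdef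
  let σ : Finset T → AsBoolRing T := fun G => ∑ c ∈ G, toBoolRing c
  have h2 : ∀ r : AsBoolRing T, r + r = 0 := BooleanRing.add_self
  have hσ : ∀ G H, σ (symmDiff G H) = σ G + σ H := by
    intro G H
    simp only [σ]
    rw [symmDiff_def, Finset.sup_eq_union, Finset.sum_union disjoint_sdiff_sdiff,
      ← Finset.sum_inter_add_sum_sdiff G H, ← Finset.sum_inter_add_sum_sdiff H G,
      Finset.inter_comm H G]
    linear_combination - h2 (∑ c ∈ G ∩ H, toBoolRing c)
  have hadd : ∀ (A : Finset T) r s, (∃ G ⊆ A, r = σ G) → (∃ G ⊆ A, s = σ G) →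
      ∃ G ⊆ A, r + s = σ G := by
    rintro A _ _ ⟨G, hG, rfl⟩ ⟨H, hH, rfl⟩
    exact ⟨symmDiff G H, symmDiff_le_sup.trans (sup_le hG hH), (hσ G H).symm⟩
  have hmul : ∀ G H : Finset T, (↑G ⊆ D) → (↑H ⊆ D) → ∃ K ⊆ G ∪ H, σ G * σ H = σ K := by
    intro G H hG hH
    simp only [σ, Finset.sum_mul_sum]
    refine Finset.sum_induction _ (fun r => ∃ K ⊆ G ∪ H, r = σ K) (hadd _) ⟨∅, by simp, rfl⟩
      (fun c hc => Finset.sum_induction _ (fun r => ∃ K ⊆ G ∪ H, r = σ K) (hadd _)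
        ⟨∅, by simp, rfl⟩ (fun d hd => ?_))
    rw [← toBoolRing_inf]
    rcases hD.total (hG hc) (hH hd) with h | h
    · exact ⟨{c}, by simp [hc], by simp [σ, inf_eq_left.2 h]⟩
    · exact ⟨{d}, by simp [hd], by simp [σ, inf_eq_right.2 h]⟩
  have hsup : ∀ a b : T, toBoolRing (a ⊔ b) =
      toBoolRing a + toBoolRing b + toBoolRing a * toBoolRing b := by
    intro a b
    rw [← toBoolRing_inf, ← toBoolRing_symmDiff, ← toBoolRing_symmDiff, symmDiff_symmDiff_inf]
  have hind : ∀ G : Finset T, ↑G ⊆ D \ {⊥} → σ G = 0 → G = ∅ := by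
    intro G hG h0
    by_contra hne
    obtain ⟨m, hm⟩ := G.exists_maximal (Finset.nonempty_iff_ne_empty.2 hne)
    have h3 : (G.erase m).sup id < m ∧ (G.erase m).sup id ∈ D := by
      refine Finset.sup_induction (p := fun x => x < m ∧ x ∈ D)
        ⟨bot_lt_iff_ne_bot.2 (hG hm.1).2, mem_insert _ _⟩ (fun a ha b hb => ?_) (fun c hc => ?_)
      · rcases hD.total ha.2 hb.2 with h | h
        · rwa [sup_eq_right.2 h]
        · rwa [sup_eq_left.2 h]
      · obtain ⟨hcm, hc⟩ := Finset.mem_erase.1 hc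
        refine ⟨lt_of_le_of_ne ?_ hcm, (hG hc).1⟩
        exact (hD.total (hG hc).1 (hG hm.1).1).elim id (fun h => hm.2 hc h)
    have h4 : σ (G.erase m) = toBoolRing m := by
      have := Finset.add_sum_erase G (fun c => toBoolRing c) hm.1
      simp only [σ] at h0 ⊢
      linear_combination this + h0 - h2 (toBoolRing m)
    have h5 : σ (G.erase m) * toBoolRing ((G.erase m).sup id) = σ (G.erase m) := by
      simp only [σ, Finset.sum_mul]
      refine Finset.sum_congr rfl (fun c hc => ?_)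
      rw [← toBoolRing_inf, inf_eq_left.2 (show c ≤ _ from Finset.le_sup (f := id) hc)]
    rw [h4, ← toBoolRing_inf, toBoolRing_inj, inf_eq_left] at h5
    exact absurd h3.1 (not_lt_of_ge h5)
  have huniq : ∀ G H : Finset T, ↑G ⊆ D \ {⊥} → ↑H ⊆ D \ {⊥} → σ G = σ H → G = H := by
    intro G H hG hH h
    refine symmDiff_eq_bot.1 (hind _ (fun c hc => ?_) (by rw [hσ, h, h2]))
    exact (Finset.mem_union.1 (symmDiff_le_sup (a := G) (b := H) hc)).elim (fun h => hG h)
      (fun h => hH h)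
  have hsub : ∀ {G H K : Finset T}, ↑G ⊆ D \ {⊥} → ↑H ⊆ D \ {⊥} → K ⊆ G ∪ H → ↑K ⊆ D \ {⊥} :=
    fun hG hH hK c hc => (Finset.mem_union.1 (hK hc)).elim (fun h => hG h) (fun h => hH h)
  have hsup' : ∀ G H : Finset T, ↑G ⊆ D \ {⊥} → ↑H ⊆ D \ {⊥} →
      ∃ K ⊆ G ∪ H, σ G + σ H + σ G * σ H = σ K := fun G H hG hH =>
    hadd _ _ _ (hadd _ _ _ ⟨G, Finset.subset_union_left, rfl⟩ ⟨H, Finset.subset_union_right, rfl⟩)
      (hmul G H (hG.trans diff_subset) (hH.trans diff_subset))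
  have hone : ∀ c ∈ D, ∃ G : Finset T, ↑G ⊆ D \ {⊥} ∧ toBoolRing c = σ G := by
    intro c hc
    by_cases h : c = ⊥
    · exact ⟨∅, by simp, by simp [h, σ]⟩
    · exact ⟨{c}, by simpa using ⟨hc, h⟩, by simp [σ]⟩
  have hex : ∀ x : T, ∃ G : Finset T, ↑G ⊆ D \ {⊥} ∧ toBoolRing x = σ G := by
    intro x
    have hx : x ∈ BooleanSubalgebra.closure C := by rw [hgen]; trivial
    induction hx using BooleanSubalgebra.closure_bot_sup_induction with
    | mem x hx => exact hone x (Or.inr (Or.inr hx))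
    | bot => exact hone _ (Or.inl rfl)
    | sup x _ y _ hx hy =>
      obtain ⟨G, hG, hx⟩ := hx
      obtain ⟨H, hH, hy⟩ := hy
      obtain ⟨K, hK, h⟩ := hsup' G H hG hH
      exact ⟨K, hsub hG hH hK, by rw [hsup, hx, hy, h]⟩
    | compl x _ hx =>
      obtain ⟨G, hG, hx⟩ := hx
      obtain ⟨H, hH, hy⟩ := hone ⊤ (Or.inr (Or.inl rfl))
      refine ⟨symmDiff G H, hsub hG hH symmDiff_le_sup, ?_⟩
      rw [hσ, ← hx, ← hy, ← toBoolRing_symmDiff, symmDiff_top', hnot_eq_compl]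
  choose E hE1 hE2 using hex
  refine sel (fun x => Finsupp.onFinset (E x) (fun c => if c ∈ E x then 1 else 0)
    (fun c h => by simpa using h)) (fun x y h => ?_) (fun x y c => ?_)
  · rw [← toBoolRing_inj, hE2, hE2]
    congr 1
    ext c
    have := DFunLike.congr_fun h c
    simp only [Finsupp.onFinset_apply] at this
    by_cases h1 : c ∈ E x <;> by_cases h3 : c ∈ E y <;> simp [h1, h3] at this ⊢
  · obtain ⟨K, hK, h⟩ := hmul (E x) (E y) ((hE1 x).trans diff_subset) ((hE1 y).trans diff_subset)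
    obtain ⟨L, hL, h'⟩ := hsup' (E x) (E y) (hE1 x) (hE1 y)
    have h3 : E (x ⊓ y) = K := huniq _ _ (hE1 _) (hsub (hE1 x) (hE1 y) hK)
      (by rw [← hE2, toBoolRing_inf, hE2, hE2, h])
    have h4 : E (x ⊔ y) = L := huniq _ _ (hE1 _) (hsub (hE1 x) (hE1 y) hL)
      (by rw [← hE2, hsup, hE2, hE2, h'])
    have h5 : symmDiff K L = symmDiff (E x) (E y) := by
      refine huniq _ _ (hsub (hE1 x) (hE1 y) (symmDiff_le_sup.trans (sup_le hK hL)))
        (hsub (hE1 x) (hE1 y) (symmDiff_le_sup.trans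
          (sup_le Finset.subset_union_left Finset.subset_union_right))) ?_
      rw [hσ, hσ, ← h, ← h']
      linear_combination h2 (σ (E x) * σ (E y))
    have h6 := Finset.ext_iff.1 h5 c
    have h7 := @hK c
    simp only [Finset.mem_symmDiff, Finset.mem_union] at h6 h7
    simp only [Finsupp.add_apply, Finsupp.onFinset_apply, h3, h4]
    by_cases a1 : c ∈ E x <;> by_cases a2 : c ∈ E y <;> by_cases a3 : c ∈ K <;>
      by_cases a4 : c ∈ L <;> simp [a1, a2, a3, a4] at h6 h7 ⊢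

end Pool.Agent.Results.MP_9a43b6_co.MonotoneSelection
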